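import Mathlib

set_option autoImplicit false

open scoped ENNReal

namespace Pool.Agent.Results.MP_3da572_an.ComplexDisproof

/-- The numerical radius of a bounded linear operator on a normed space over `𝕜`. -/
noncomputable def numRadius (𝕜 : Type) [RCLike 𝕜] {X : Type} [NormedAddCommGroup X]
    [NormedSpace 𝕜 X] (T : X →L[𝕜] X) : ℝ :=
  sSup {r : ℝ | ∃ (x : X) (f : X →L[𝕜] 𝕜), ‖x‖ = 1 ∧ ‖f‖ = 1 ∧ f x = 1 ∧ r = ‖f (T x)‖}

/-- The numerical index of a normed space over `𝕜`. -/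
noncomputable def numIndex (𝕜 : Type) [RCLike 𝕜] (X : Type) [NormedAddCommGroup X]
    [NormedSpace 𝕜 X] : ℝ :=
  sInf {r : ℝ | ∃ T : X →L[𝕜] X, ‖T‖ = 1 ∧ r = numRadius 𝕜 T}

instance fact3 : Fact ((1 : ℝ≥0∞) ≤ 3) := ⟨by norm_num⟩

section General

variable {X : Type} [NormedAddCommGroup X] [NormedSpace ℂ X]

lemma radius_bdd (T : X →L[ℂ] X) : BddAbove {r : ℝ | ∃ (x : X) (f : X →L[ℂ] ℂ),
    ‖x‖ = 1 ∧ ‖f‖ = 1 ∧ f x = 1 ∧ r = ‖f (T x)‖} := by
  refine ⟨‖T‖, ?_⟩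
  rintro _ ⟨x, f, hx, hf, _, rfl⟩
  calc ‖f (T x)‖ ≤ ‖f‖ * ‖T x‖ := f.le_opNorm _
    _ ≤ 1 * (‖T‖ * 1) := by
        rw [hf]
        gcongr
        calc ‖T x‖ ≤ ‖T‖ * ‖x‖ := T.le_opNorm _
          _ = ‖T‖ * 1 := by rw [hx]
    _ = ‖T‖ := by ring

lemma le_numRadius (T : X →L[ℂ] X) (x : X) (f : X →L[ℂ] ℂ) (hx : ‖x‖ = 1) (hf : ‖f‖ = 1)
    (hfx : f x = 1) : ‖f (T x)‖ ≤ numRadius ℂ T :=
  le_csSup (radius_bdd T) ⟨x, f, hx, hf, hfx, rfl⟩

lemma numRadius_nonneg (T : X →L[ℂ] X) : 0 ≤ numRadius ℂ T := by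
  apply Real.sSup_nonneg
  rintro _ ⟨x, f, _, _, _, rfl⟩
  exact norm_nonneg _

lemma numRadius_le (T : X →L[ℂ] X) (c : ℝ) (hc : 0 ≤ c) (h : ∀ (x : X) (f : X →L[ℂ] ℂ),
    ‖x‖ = 1 → ‖f‖ = 1 → f x = 1 → ‖f (T x)‖ ≤ c) : numRadius ℂ T ≤ c := by
  apply Real.sSup_le _ hc
  rintro _ ⟨x, f, hx, hf, hfx, rfl⟩
  exact h x f hx hf hfx

/-- An operator `T` with `‖f (T x)‖ ≤ c` on all pairs and `‖T‖ ≥ d > 0` bounds the index by
`c / d`. -/
lemma numIndex_le (T : X →L[ℂ] X) (c d : ℝ) (hc : 0 ≤ c) (hd : 0 < d) (hT : d ≤ ‖T‖)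
    (h : ∀ (x : X) (f : X →L[ℂ] ℂ), ‖x‖ = 1 → ‖f‖ = 1 → f x = 1 → ‖f (T x)‖ ≤ c) :
    numIndex ℂ X ≤ c / d := by
  have hTp : 0 < ‖T‖ := lt_of_lt_of_le hd hT
  have hbdd : BddBelow {r : ℝ | ∃ T : X →L[ℂ] X, ‖T‖ = 1 ∧ r = numRadius ℂ T} := by
    refine ⟨0, ?_⟩
    rintro _ ⟨S, _, rfl⟩
    exact numRadius_nonneg S
  have hnorm : ‖((‖T‖⁻¹ : ℝ) : ℂ) • T‖ = 1 := by
    rw [norm_smul]
    simp only [Complex.norm_real, norm_inv, norm_norm]
    exact inv_mul_cancel₀ hTp.ne'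
  have h1 : numIndex ℂ X ≤ numRadius ℂ (((‖T‖⁻¹ : ℝ) : ℂ) • T) :=
    csInf_le hbdd ⟨_, hnorm, rfl⟩
  have h2 : numRadius ℂ (((‖T‖⁻¹ : ℝ) : ℂ) • T) ≤ c / d := by
    apply numRadius_le _ _ (by positivity)
    intro x f hx hf hfx
    have h3 := h x f hx hf hfx
    have h4 : f ((((‖T‖⁻¹ : ℝ) : ℂ) • T) x) = ((‖T‖⁻¹ : ℝ) : ℂ) * f (T x) := by
      simp
    rw [h4, norm_mul]
    simp only [Complex.norm_real, norm_inv, norm_norm]
    calc ‖T‖⁻¹ * ‖f (T x)‖ ≤ d⁻¹ * c := by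
          gcongr
      _ = c / d := by rw [div_eq_mul_inv, mul_comm]
  exact h1.trans h2

/-- If `‖T‖ ≤ K v(T)` for all operators then the index is at least `1 / K`. -/
lemma le_numIndex (K : ℝ) (hK : 0 < K) (hne : ∃ T : X →L[ℂ] X, ‖T‖ = 1)
    (h : ∀ T : X →L[ℂ] X, ‖T‖ ≤ K * numRadius ℂ T) : 1 / K ≤ numIndex ℂ X := by
  obtain ⟨T0, hT0⟩ := hne
  refine le_csInf ⟨_, T0, hT0, rfl⟩ ?_
  rintro _ ⟨T, hT, rfl⟩
  have h1 := h T
  rw [hT] at h1
  rw [div_le_iff₀ hK]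
  linarith

end General

section Upper

/-- The complex space `ℓ_3`. -/
abbrev Seq3 : Type := lp (fun _ : ℕ => ℂ) 3

/-- The vector `w e_i`. -/
noncomputable def sg (i : ℕ) (w : ℂ) : Seq3 := lp.single 3 i w

lemma sg_apply (i : ℕ) (w : ℂ) (j : ℕ) : (sg i w) j = (Pi.single i w : ℕ → ℂ) j := rfl

lemma sg_smul (i : ℕ) (w : ℂ) : sg i w = w • sg i 1 := by
  unfold sg
  rw [← lp.single_smul]
  simp

lemma toReal3 : (3 : ℝ≥0∞).toReal = ((3 : ℕ) : ℝ) := by simp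

lemma norm_update (x : Seq3) (i : ℕ) (w : ℂ) :
    ‖x + sg i w‖ ^ 3 = ‖x‖ ^ 3 - ‖x i‖ ^ 3 + ‖x i + w‖ ^ 3 := by
  have hp : 0 < (3 : ℝ≥0∞).toReal := by simp
  have h1 := lp.norm_sub_norm_compl_sub_single hp x {i}
  have h2 := lp.norm_sub_norm_compl_sub_single hp (x + sg i w) {i}
  have h4 : (x + sg i w : Seq3) i = x i + w := by simp [sg]
  simp only [Finset.sum_singleton] at h1 h2
  rw [h4] at h2
  have h3 : x + sg i w - lp.single 3 i (x i + w) = x - lp.single 3 i (x i) := by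
    unfold sg
    rw [lp.single_add]
    abel
  rw [h3] at h2
  rw [toReal3] at h1 h2
  simp only [Real.rpow_natCast] at h1 h2
  linarith

lemma deriv_cube (z w : ℂ) :
    HasDerivAt (fun s : ℝ => ‖z + (s : ℂ) * w‖ ^ 3) (3 * ‖z‖ * (z.re * w.re + z.im * w.im)) 0 := by
  have h1 := hasFDerivAt_norm_rpow (E := ℂ) (z + ((0 : ℝ) : ℂ) * w) (p := 3) (by norm_num)
  have h2 : HasDerivAt (fun s : ℝ => z + (s : ℂ) * w) w 0 := by
    have h3 : HasDerivAt (fun s : ℝ => (s : ℂ)) 1 0 := Complex.ofRealCLM.hasDerivAt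
    simpa using (h3.mul_const w).const_add z
  have h4 := h1.comp_hasDerivAt (0 : ℝ) h2
  have h5 : (fun x : ℂ => ‖x‖ ^ (3 : ℝ)) ∘ (fun s : ℝ => z + (s : ℂ) * w)
      = fun s : ℝ => ‖z + (s : ℂ) * w‖ ^ 3 := by
    funext s
    simp only [Function.comp]
    exact_mod_cast Real.rpow_natCast _ 3
  rw [h5] at h4
  convert! h4 using 1
  have h6 : (3 : ℝ) - 2 = 1 := by norm_num
  simp only [Complex.ofReal_zero, zero_mul, add_zero, h6, Real.rpow_one]
  simp only [FunLike.coe_smul, Pi.smul_apply, innerSL_apply_apply, Complex.inner,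
    smul_eq_mul, Complex.mul_re, Complex.conj_re, Complex.conj_im]
  ring

lemma coord (x : Seq3) (f : Seq3 →L[ℂ] ℂ) (hx : ‖x‖ = 1) (hf : ‖f‖ = 1) (hfx : f x = 1) (i : ℕ) :
    f (sg i 1) = (‖x i‖ : ℂ) * (starRingEnd ℂ) (x i) := by
  have key : ∀ w : ℂ, (w * f (sg i 1)).re
      = ‖x i‖ * ((x i).re * w.re + (x i).im * w.im) := by
    intro w
    set c : ℝ := (w * f (sg i 1)).re with hc
    have hle : ∀ s : ℝ, (1 + s * c) ^ 3 ≤ 1 - ‖x i‖ ^ 3 + ‖x i + (s : ℂ) * w‖ ^ 3 := by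
      intro s
      have h1 : f (x + sg i ((s : ℂ) * w)) = 1 + (s : ℂ) * (w * f (sg i 1)) := by
        rw [map_add, hfx, sg_smul, map_smul, smul_eq_mul]
        ring
      have h3 : 1 + s * c ≤ ‖x + sg i ((s : ℂ) * w)‖ := by
        calc 1 + s * c = (f (x + sg i ((s : ℂ) * w))).re := by
              rw [h1, hc]
              simp
          _ ≤ ‖f (x + sg i ((s : ℂ) * w))‖ := Complex.re_le_norm _
          _ ≤ ‖f‖ * ‖x + sg i ((s : ℂ) * w)‖ := f.le_opNorm _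
          _ = ‖x + sg i ((s : ℂ) * w)‖ := by rw [hf, one_mul]
      have h4 := norm_update x i ((s : ℂ) * w)
      rw [hx, one_pow] at h4
      rw [← h4]
      exact (Odd.strictMono_pow (by decide : Odd 3)).monotone h3
    have hd := ((deriv_cube (x i) w).const_add (1 - ‖x i‖ ^ 3)).sub
      ((((hasDerivAt_id (0 : ℝ)).mul_const c).const_add 1).pow 3)
    have hmin : IsLocalMin (fun s : ℝ => (1 - ‖x i‖ ^ 3 + ‖x i + (s : ℂ) * w‖ ^ 3)
        - (1 + s * c) ^ 3) 0 := by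
      refine Filter.Eventually.of_forall fun s => ?_
      have := hle s
      simp only [Complex.ofReal_zero, zero_mul, add_zero, one_pow]
      linarith
    have h0 := hmin.hasDerivAt_eq_zero hd
    simp at h0
    linarith
  have k1 := key 1
  have k2 := key Complex.I
  apply Complex.ext
  · simp at k1 ⊢
    linarith
  · simp at k2 ⊢
    linarith

/-- The key polynomial, affine in `C`. -/
lemma poly_nonneg (A B C : ℝ) (hB : 0 ≤ B) (hBA : B ≤ A) (h1 : C ≤ A * B) (h2 : -(A * B) ≤ C) :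
    0 ≤ 7803 / 10000 * ((7 * A + 13 * B) / 10) * ((9 * A + 4 * B) / 10) * (A ^ 3 + B ^ 3)
      - 98 / 625 * (((7 * A + 13 * B) / 10) ^ 2 * ((9 * A + 4 * B) / 10) * (A ^ 2 + B ^ 2 - 2 * C)
        + ((9 * A + 4 * B) / 10) * (A ^ 4 + B ^ 4 + 2 * (A * B) * C))
      - 200 / 459 * (3 / 4 * ((7 * A + 13 * B) / 10) * (A ^ 4 + B ^ 4 + 2 * (A * B) * C)
        + 1 / 4 * ((7 * A + 13 * B) / 10) * ((9 * A + 4 * B) / 10) ^ 4) := by
  obtain ⟨E, rfl⟩ : ∃ E, A = B + E := ⟨A - B, by ring⟩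
  have hE : 0 ≤ E := by linarith
  have hm : 0 ≤ 7803 / 10000 * ((7 * (B + E) + 13 * B) / 10) * ((9 * (B + E) + 4 * B) / 10)
        * ((B + E) ^ 3 + B ^ 3)
      - 98 / 625 * (((7 * (B + E) + 13 * B) / 10) ^ 2 * ((9 * (B + E) + 4 * B) / 10)
        * ((B + E) ^ 2 + B ^ 2 - 2 * (-((B + E) * B)))
        + ((9 * (B + E) + 4 * B) / 10) * ((B + E) ^ 4 + B ^ 4
          + 2 * ((B + E) * B) * (-((B + E) * B))))
      - 200 / 459 * (3 / 4 * ((7 * (B + E) + 13 * B) / 10) * ((B + E) ^ 4 + B ^ 4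
          + 2 * ((B + E) * B) * (-((B + E) * B)))
        + 1 / 4 * ((7 * (B + E) + 13 * B) / 10) * ((9 * (B + E) + 4 * B) / 10) ^ 4) := by
    have : 7803 / 10000 * ((7 * (B + E) + 13 * B) / 10) * ((9 * (B + E) + 4 * B) / 10)
        * ((B + E) ^ 3 + B ^ 3)
      - 98 / 625 * (((7 * (B + E) + 13 * B) / 10) ^ 2 * ((9 * (B + E) + 4 * B) / 10)
        * ((B + E) ^ 2 + B ^ 2 - 2 * (-((B + E) * B)))
        + ((9 * (B + E) + 4 * B) / 10) * ((B + E) ^ 4 + B ^ 4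
          + 2 * ((B + E) * B) * (-((B + E) * B))))
      - 200 / 459 * (3 / 4 * ((7 * (B + E) + 13 * B) / 10) * ((B + E) ^ 4 + B ^ 4
          + 2 * ((B + E) * B) * (-((B + E) * B)))
        + 1 / 4 * ((7 * (B + E) + 13 * B) / 10) * ((9 * (B + E) + 4 * B) / 10) ^ 4)
      = 1937453 / 765000000 * E ^ 5 + 3112259 / 63750000 * (E ^ 4 * B)
        + 3997557 / 42500000 * (E ^ 3 * B ^ 2) + 11463737 / 45000000 * (E ^ 2 * B ^ 3)
        + 131337191 / 229500000 * (E * B ^ 4) + 1995227 / 11475000 * B ^ 5 := by ring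
    rw [this]
    positivity
  have hp : 0 ≤ 7803 / 10000 * ((7 * (B + E) + 13 * B) / 10) * ((9 * (B + E) + 4 * B) / 10)
        * ((B + E) ^ 3 + B ^ 3)
      - 98 / 625 * (((7 * (B + E) + 13 * B) / 10) ^ 2 * ((9 * (B + E) + 4 * B) / 10)
        * ((B + E) ^ 2 + B ^ 2 - 2 * ((B + E) * B))
        + ((9 * (B + E) + 4 * B) / 10) * ((B + E) ^ 4 + B ^ 4
          + 2 * ((B + E) * B) * ((B + E) * B)))
      - 200 / 459 * (3 / 4 * ((7 * (B + E) + 13 * B) / 10) * ((B + E) ^ 4 + B ^ 4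
          + 2 * ((B + E) * B) * ((B + E) * B))
        + 1 / 4 * ((7 * (B + E) + 13 * B) / 10) * ((9 * (B + E) + 4 * B) / 10) ^ 4) := by
    have : 7803 / 10000 * ((7 * (B + E) + 13 * B) / 10) * ((9 * (B + E) + 4 * B) / 10)
        * ((B + E) ^ 3 + B ^ 3)
      - 98 / 625 * (((7 * (B + E) + 13 * B) / 10) ^ 2 * ((9 * (B + E) + 4 * B) / 10)
        * ((B + E) ^ 2 + B ^ 2 - 2 * ((B + E) * B))
        + ((9 * (B + E) + 4 * B) / 10) * ((B + E) ^ 4 + B ^ 4
          + 2 * ((B + E) * B) * ((B + E) * B)))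
      - 200 / 459 * (3 / 4 * ((7 * (B + E) + 13 * B) / 10) * ((B + E) ^ 4 + B ^ 4
          + 2 * ((B + E) * B) * ((B + E) * B))
        + 1 / 4 * ((7 * (B + E) + 13 * B) / 10) * ((9 * (B + E) + 4 * B) / 10) ^ 4)
      = 1937453 / 765000000 * E ^ 5 + 20745203 / 63750000 * (E ^ 4 * B)
        + 66647801 / 76500000 * (E ^ 3 * B ^ 2) + 1160951 / 3000000 * (E ^ 2 * B ^ 3)
        + 8182247 / 229500000 * (E * B ^ 4) + 12799 / 2295000 * B ^ 5 := by ring
    rw [this]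
    positivity
  have hAB : 0 ≤ (B + E) * B := by positivity
  rcases hAB.eq_or_lt with h0 | h0
  · have hC : C = (B + E) * B := by linarith
    rw [hC]
    exact hp
  · have k1 := mul_nonneg (sub_nonneg.2 h1) hm
    have k2 := mul_nonneg (by linarith : (0 : ℝ) ≤ (B + E) * B + C) hp
    refine nonneg_of_mul_nonneg_right (a := 2 * ((B + E) * B)) ?_ (by linarith)
    calc (0 : ℝ) ≤ _ := add_nonneg k1 k2
      _ = _ := by ring

lemma core_aux (A B C D Q q z : ℝ) (hA : 0 < A) (hB : 0 ≤ B) (hBA : B ≤ A) (hz : 0 ≤ z)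
    (h1 : C ≤ A * B) (h2 : -(A * B) ≤ C) (hD : D ^ 2 = A ^ 2 + B ^ 2 - 2 * C)
    (hQ : Q ^ 2 = A ^ 4 + B ^ 4 + 2 * (A * B) * C) (hq0 : 0 ≤ q) (hq : q ^ 2 = Q) :
    (196 / 625 * D + z) * Q ≤ 7803 / 10000 * (A ^ 3 + B ^ 3 + z ^ 3) := by
  have hP := poly_nonneg A B C hB hBA h1 h2
  rw [← hD, ← hQ] at hP
  set M := (7 * A + 13 * B) / 10 with hM
  set m := (9 * A + 4 * B) / 10 with hm
  have hMp : 0 < M := by rw [hM]; positivity
  have hmp : 0 < m := by rw [hm]; positivity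
  have s1 : z * Q ≤ 7803 / 10000 * z ^ 3 + 200 / 459 * q ^ 3 := by
    have : 0 ≤ (153 / 100 * z - q) ^ 2 * (153 / 100 * z + 2 * q) := by positivity
    rw [← hq]
    nlinarith
  have s2 : 0 ≤ (q - m) ^ 2 * (3 * q ^ 2 + 2 * q * m + m ^ 2) := by positivity
  have s3 : 0 ≤ m * (M * D - Q) ^ 2 := by positivity
  have s4 : M * m * (7803 / 10000 * (A ^ 3 + B ^ 3) - 196 / 625 * D * Q - 200 / 459 * q ^ 3)
      = (7803 / 10000 * M * m * (A ^ 3 + B ^ 3)
      - 98 / 625 * (M ^ 2 * m * D ^ 2 + m * Q ^ 2)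
      - 200 / 459 * (3 / 4 * M * Q ^ 2 + 1 / 4 * M * m ^ 4))
      + 98 / 625 * (m * (M * D - Q) ^ 2)
      + 50 / 459 * M * ((q - m) ^ 2 * (3 * q ^ 2 + 2 * q * m + m ^ 2)) := by
    rw [← hq]
    ring
  have s5 : 0 ≤ M * m * (7803 / 10000 * (A ^ 3 + B ^ 3) - 196 / 625 * D * Q
      - 200 / 459 * q ^ 3) := by
    rw [s4]
    positivity
  have s6 := nonneg_of_mul_nonneg_right s5 (by positivity)
  linarith

lemma core (A B C D Q z : ℝ) (hA : 0 ≤ A) (hB : 0 ≤ B) (hz : 0 ≤ z)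
    (h1 : C ≤ A * B) (h2 : -(A * B) ≤ C) (hD : D ^ 2 = A ^ 2 + B ^ 2 - 2 * C)
    (hQ : Q ^ 2 = A ^ 4 + B ^ 4 + 2 * (A * B) * C) (hQ0 : 0 ≤ Q) :
    (196 / 625 * D + z) * Q ≤ 7803 / 10000 * (A ^ 3 + B ^ 3 + z ^ 3) := by
  rcases le_total B A with h | h
  · rcases hA.eq_or_lt with h0 | h0
    · have hA0 : A = 0 := h0.symm
      have hB0 : B = 0 := by linarith
      subst hA0
      subst hB0
      have : Q = 0 := by
        have : Q ^ 2 = 0 := by rw [hQ]; ring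
        exact pow_eq_zero_iff (two_ne_zero) |>.1 this
      rw [this, mul_zero]
      positivity
    · exact core_aux A B C D Q (Real.sqrt Q) z h0 hB h hz h1 h2 hD hQ (Real.sqrt_nonneg _)
        (Real.sq_sqrt hQ0)
  · rcases hB.eq_or_lt with h0 | h0
    · have hB0 : B = 0 := h0.symm
      have hA0 : A = 0 := by linarith
      subst hA0
      subst hB0
      have : Q = 0 := by
        have : Q ^ 2 = 0 := by rw [hQ]; ring
        exact pow_eq_zero_iff (two_ne_zero) |>.1 this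
      rw [this, mul_zero]
      positivity
    · have := core_aux B A C D Q (Real.sqrt Q) z h0 hA h hz (by linarith) (by linarith)
        (by rw [hD]; ring) (by rw [hQ]; ring) (Real.sqrt_nonneg _) (Real.sq_sqrt hQ0)
      linarith

/-- The functional `x ↦ α x₀ - α x₁ + x₂` on `ℓ_3`, where `α = 0.3136`. -/
noncomputable def vf : Seq3 →L[ℂ] ℂ :=
  (196 / 625 : ℂ) • lp.evalCLM ℂ (fun _ : ℕ => ℂ) 3 0
    - (196 / 625 : ℂ) • lp.evalCLM ℂ (fun _ : ℕ => ℂ) 3 1 + lp.evalCLM ℂ (fun _ : ℕ => ℂ) 3 2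

lemma vf_apply (x : Seq3) : vf x = 196 / 625 * (x 0 - x 1) + x 2 := by
  have : vf x = (196 / 625 : ℂ) * x 0 - (196 / 625 : ℂ) * x 1 + x 2 := rfl
  rw [this]
  ring

/-- The rank one operator `x ↦ (α x₀ - α x₁ + x₂) (e₀ + e₁)`. -/
noncomputable def op : Seq3 →L[ℂ] Seq3 := vf.smulRight (sg 0 1 + sg 1 1)

lemma op_apply (x : Seq3) : op x = vf x • (sg 0 1 + sg 1 1) := rfl

lemma norm_e : ‖sg 0 1 + sg 1 1‖ ^ 3 = 2 := by
  have h0 : ‖sg 0 1‖ = 1 := by
    unfold sg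
    rw [lp.norm_single (by norm_num)]
    simp
  have h1 : (sg 0 1) 1 = 0 := by simp [sg]
  rw [norm_update, h0, h1]
  norm_num

lemma norm_y : ‖sg 2 1 + sg 0 (14 / 25) + sg 1 (-(14 / 25))‖ ^ 3 = 21113 / 15625 := by
  have h0 : ‖sg 2 1‖ = 1 := by
    unfold sg
    rw [lp.norm_single (by norm_num)]
    simp
  have h1 : (sg 2 1) 0 = 0 := by simp [sg]
  have h2 : (sg 2 1 + sg 0 (14 / 25) : Seq3) 1 = 0 := by simp [sg]
  rw [norm_update, norm_update, h2, h1, h0]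
  have h3 : ‖(0 : ℂ) + 14 / 25‖ = 14 / 25 := by
    rw [zero_add]
    have : ((14 : ℂ) / 25) = ((14 / 25 : ℝ) : ℂ) := by push_cast; ring
    rw [this, Complex.norm_real]
    norm_num
  have h4 : ‖(0 : ℂ) + -(14 / 25)‖ = 14 / 25 := by
    rw [zero_add, norm_neg, ← zero_add (14 / 25 : ℂ), h3]
  rw [h3, h4]
  norm_num

lemma op_norm : 1539 / 1000 ≤ ‖op‖ := by
  set y : Seq3 := sg 2 1 + sg 0 (14 / 25) + sg 1 (-(14 / 25)) with hy
  have hy3 := norm_y
  rw [← hy] at hy3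
  have hv : vf y = 21113 / 15625 := by
    rw [vf_apply]
    have e0 : y 0 = 14 / 25 := by simp [hy, sg]
    have e1 : y 1 = -(14 / 25) := by simp [hy, sg]
    have e2 : y 2 = 1 := by simp [hy, sg]
    rw [e0, e1, e2]
    norm_num
  have hle := op.le_opNorm y
  rw [op_apply, hv, norm_smul] at hle
  have hn : ‖(21113 / 15625 : ℂ)‖ = 21113 / 15625 := by
    have : ((21113 : ℂ) / 15625) = ((21113 / 15625 : ℝ) : ℂ) := by push_cast; ring
    rw [this, Complex.norm_real]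
    norm_num
  rw [hn] at hle
  have h3 : (21113 / 15625 * ‖sg 0 1 + sg 1 1‖) ^ 3 ≤ (‖op‖ * ‖y‖) ^ 3 :=
    pow_le_pow_left₀ (by positivity) hle 3
  rw [mul_pow, mul_pow, norm_e, hy3] at h3
  by_contra hcon
  push Not at hcon
  have h4 : ‖op‖ ^ 3 < (1539 / 1000) ^ 3 := pow_lt_pow_left₀ hcon (norm_nonneg _) (by norm_num)
  norm_num at h3 h4
  linarith

lemma op_radius (x : Seq3) (f : Seq3 →L[ℂ] ℂ) (hx : ‖x‖ = 1) (hf : ‖f‖ = 1) (hfx : f x = 1) :
    ‖f (op x)‖ ≤ 7803 / 10000 := by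
  have c0 := coord x f hx hf hfx 0
  have c1 := coord x f hx hf hfx 1
  have e1 : f (op x) = vf x * ((‖x 0‖ : ℂ) * (starRingEnd ℂ) (x 0)
      + (‖x 1‖ : ℂ) * (starRingEnd ℂ) (x 1)) := by
    rw [op_apply, map_smul, map_add, c0, c1, smul_eq_mul]
  have e2 : ‖vf x‖ ≤ 196 / 625 * ‖x 0 - x 1‖ + ‖x 2‖ := by
    rw [vf_apply]
    refine (norm_add_le _ _).trans ?_
    rw [norm_mul]
    have : ‖(196 / 625 : ℂ)‖ = 196 / 625 := by
      have : ((196 : ℂ) / 625) = ((196 / 625 : ℝ) : ℂ) := by push_cast; ring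
      rw [this, Complex.norm_real]
      norm_num
    rw [this]
  have hsum : ‖x 0‖ ^ 3 + ‖x 1‖ ^ 3 + ‖x 2‖ ^ 3 ≤ 1 := by
    have h := lp.sum_rpow_le_norm_rpow (p := 3) (by simp) x (Finset.range 3)
    rw [hx, toReal3] at h
    simp only [Real.rpow_natCast, Finset.sum_range_succ, Finset.sum_range_zero, zero_add,
      one_pow] at h
    exact h
  set A := ‖x 0‖ with hA
  set B := ‖x 1‖ with hB
  set z := ‖x 2‖ with hz
  set D := ‖x 0 - x 1‖ with hD
  set Q := ‖(A : ℂ) * (starRingEnd ℂ) (x 0) + (B : ℂ) * (starRingEnd ℂ) (x 1)‖ with hQ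
  set C := (x 0).re * (x 1).re + (x 0).im * (x 1).im with hC
  have hA2 : A ^ 2 = (x 0).re ^ 2 + (x 0).im ^ 2 := by
    rw [hA, ← Complex.normSq_eq_norm_sq, Complex.normSq_apply]
    ring
  have hB2 : B ^ 2 = (x 1).re ^ 2 + (x 1).im ^ 2 := by
    rw [hB, ← Complex.normSq_eq_norm_sq, Complex.normSq_apply]
    ring
  have hA0 : 0 ≤ A := norm_nonneg _
  have hB0 : 0 ≤ B := norm_nonneg _
  have hCsq : C ^ 2 ≤ (A * B) ^ 2 := by
    rw [mul_pow, hA2, hB2, hC]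
    nlinarith [sq_nonneg ((x 0).re * (x 1).im - (x 0).im * (x 1).re)]
  have hCabs := abs_le_of_sq_le_sq' hCsq (by positivity)
  have hD2 : D ^ 2 = A ^ 2 + B ^ 2 - 2 * C := by
    rw [hD, ← Complex.normSq_eq_norm_sq, Complex.normSq_apply, hA2, hB2, hC]
    simp only [Complex.sub_re, Complex.sub_im]
    ring
  have hQ2 : Q ^ 2 = A ^ 4 + B ^ 4 + 2 * (A * B) * C := by
    have e3 : A ^ 4 = A ^ 2 * ((x 0).re ^ 2 + (x 0).im ^ 2) := by rw [← hA2]; ring
    have e4 : B ^ 4 = B ^ 2 * ((x 1).re ^ 2 + (x 1).im ^ 2) := by rw [← hB2]; ring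
    rw [hQ, ← Complex.normSq_eq_norm_sq, Complex.normSq_apply, e3, e4, hC]
    simp only [Complex.add_re, Complex.add_im, Complex.mul_re, Complex.mul_im, Complex.conj_re,
      Complex.conj_im, Complex.ofReal_re, Complex.ofReal_im]
    ring
  have key := core A B C D Q z hA0 hB0 (norm_nonneg _) hCabs.2 (by linarith [hCabs.1]) hD2 hQ2
    (norm_nonneg _)
  rw [e1, norm_mul]
  calc ‖vf x‖ * Q ≤ (196 / 625 * D + z) * Q := by
        gcongr
    _ ≤ 7803 / 10000 * (A ^ 3 + B ^ 3 + z ^ 3) := key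
    _ ≤ 7803 / 10000 * 1 := by gcongr
    _ = 7803 / 10000 := by norm_num

lemma upper : numIndex ℂ Seq3 ≤ (7803 / 10000) / (1539 / 1000) :=
  numIndex_le op _ _ (by norm_num) (by norm_num) op_norm op_radius

end Upper

section Lower

/-- The complex space `ℓ_3^2`. -/
abbrev Two3 : Type := PiLp 3 (fun _ : Fin 2 => ℂ)

lemma two_norm (x : Two3) : ‖x‖ ^ 3 = ‖x 0‖ ^ 3 + ‖x 1‖ ^ 3 := by
  rw [PiLp.norm_eq_sum (by simp)]
  rw [toReal3]
  simp only [Real.rpow_natCast, Fin.sum_univ_two]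
  rw [← Real.rpow_natCast, ← Real.rpow_mul (by positivity)]
  norm_num

/-- The functional `y ↦ ∑ |x_i| conj(x_i) y_i`. -/
noncomputable def phi (x : Two3) : Two3 →L[ℂ] ℂ :=
  ((‖x 0‖ : ℂ) * (starRingEnd ℂ) (x 0)) • PiLp.proj 3 (fun _ : Fin 2 => ℂ) 0
    + ((‖x 1‖ : ℂ) * (starRingEnd ℂ) (x 1)) • PiLp.proj 3 (fun _ : Fin 2 => ℂ) 1

lemma phi_apply (x y : Two3) : phi x y = (‖x 0‖ : ℂ) * (starRingEnd ℂ) (x 0) * y 0
    + (‖x 1‖ : ℂ) * (starRingEnd ℂ) (x 1) * y 1 := rfl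

lemma phi_self (x : Two3) : phi x x = ((‖x‖ ^ 3 : ℝ) : ℂ) := by
  rw [phi_apply, two_norm]
  have h : ∀ z : ℂ, (‖z‖ : ℂ) * (starRingEnd ℂ) z * z = ((‖z‖ ^ 3 : ℝ) : ℂ) := by
    intro z
    rw [mul_assoc, mul_comm ((starRingEnd ℂ) z), Complex.mul_conj, Complex.normSq_eq_norm_sq]
    push_cast
    ring
  rw [h, h]
  push_cast
  ring

lemma phi_le (x : Two3) (hx : ‖x‖ = 1) (y : Two3) : ‖phi x y‖ ≤ ‖y‖ := by
  have h1 : ‖phi x y‖ ≤ ‖x 0‖ ^ 2 * ‖y 0‖ + ‖x 1‖ ^ 2 * ‖y 1‖ := by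
    rw [phi_apply]
    refine (norm_add_le _ _).trans ?_
    rw [norm_mul, norm_mul, norm_mul, norm_mul]
    simp only [Complex.norm_real, norm_norm, RCLike.norm_conj]
    apply le_of_eq
    ring
  have hx3 := two_norm x
  have hy3 := two_norm y
  rw [hx, one_pow] at hx3
  rcases (norm_nonneg y).eq_or_lt with h0 | h0
  · have : y = 0 := norm_eq_zero.1 h0.symm
    rw [this]
    simp
  · refine h1.trans ?_
    set N := ‖y‖
    have k0 : 0 ≤ (‖y 0‖ - ‖x 0‖ * N) ^ 2 * (‖y 0‖ + 2 * (‖x 0‖ * N)) := by positivity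
    have k1 : 0 ≤ (‖y 1‖ - ‖x 1‖ * N) ^ 2 * (‖y 1‖ + 2 * (‖x 1‖ * N)) := by positivity
    have k2 : N ^ 3 = N ^ 3 * (‖x 0‖ ^ 3 + ‖x 1‖ ^ 3) := by rw [← hx3, mul_one]
    have k3 : N ^ 2 * (‖x 0‖ ^ 2 * ‖y 0‖ + ‖x 1‖ ^ 2 * ‖y 1‖) ≤ N ^ 2 * N := by
      nlinarith
    exact le_of_mul_le_mul_left k3 (by positivity)

lemma phi_norm (x : Two3) (hx : ‖x‖ = 1) : ‖phi x‖ = 1 := by
  apply le_antisymm
  · apply ContinuousLinearMap.opNorm_le_bound _ zero_le_one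
    intro y
    rw [one_mul]
    exact phi_le x hx y
  · have h := (phi x).le_opNorm x
    rw [phi_self, hx] at h
    simpa using h

lemma hom (S : Two3 →L[ℂ] Two3) (x : Two3) : ‖phi x (S x)‖ ≤ numRadius ℂ S * ‖x‖ ^ 3 := by
  rcases (norm_nonneg x).eq_or_lt with h0 | h0
  · have : x = 0 := norm_eq_zero.1 h0.symm
    rw [this]
    simp
  · set n := ‖x‖ with hn
    set x' : Two3 := ((n⁻¹ : ℝ) : ℂ) • x with hx'
    have hx'1 : ‖x'‖ = 1 := by
      rw [hx', norm_smul, Complex.norm_real, norm_inv, Real.norm_of_nonneg h0.le, ← hn]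
      exact inv_mul_cancel₀ h0.ne'
    have h1 := le_numRadius S x' (phi x') hx'1 (phi_norm x' hx'1)
      (by rw [phi_self, hx'1]; simp)
    have h2 : phi x' (S x') = ((n⁻¹ ^ 3 : ℝ) : ℂ) * phi x (S x) := by
      have e0 : x' 0 = ((n⁻¹ : ℝ) : ℂ) * x 0 := rfl
      have e1 : x' 1 = ((n⁻¹ : ℝ) : ℂ) * x 1 := rfl
      have e2 : (S x') 0 = ((n⁻¹ : ℝ) : ℂ) * (S x) 0 := by
        rw [hx', map_smul]
        rfl
      have e3 : (S x') 1 = ((n⁻¹ : ℝ) : ℂ) * (S x) 1 := by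
        rw [hx', map_smul]
        rfl
      rw [phi_apply, phi_apply, e0, e1, e2, e3, norm_mul, norm_mul, Complex.norm_real,
        Real.norm_of_nonneg (by positivity)]
      simp only [map_mul, Complex.conj_ofReal, Complex.ofReal_mul]
      push_cast
      ring
    rw [h2, norm_mul, Complex.norm_real, Real.norm_of_nonneg (by positivity)] at h1
    have h3 : n⁻¹ ^ 3 * ‖phi x (S x)‖ * n ^ 3 ≤ numRadius ℂ S * n ^ 3 :=
      mul_le_mul_of_nonneg_right h1 (by positivity)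
    have h4 : n⁻¹ ^ 3 * ‖phi x (S x)‖ * n ^ 3 = ‖phi x (S x)‖ := by
      field_simp
    rw [h4] at h3
    exact h3

/-- A lower bound for the maximum modulus on the ellipse `A + B z + C conj z`. -/
lemma ellipse (A B C : ℂ) (V σ : ℝ) (h : ∀ z : ℂ, ‖z‖ = 1 → ‖A + B * z + C * (starRingEnd ℂ) z‖ ≤ V)
    (h0 : 0 ≤ σ) (h1 : σ ≤ 1) : ‖B‖ + ‖C‖ * (1 - 2 * σ ^ 2) + σ * ‖A‖ ≤ V := by
  have hu : ∀ Z : ℂ, ∃ u : ℂ, ‖u‖ = 1 ∧ Z = ‖Z‖ * u := by
    intro Z
    by_cases hZ : Z = 0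
    · exact ⟨1, by simp, by simp [hZ]⟩
    · have : ‖Z‖ ≠ 0 := norm_ne_zero_iff.2 hZ
      refine ⟨Z / ‖Z‖, ?_, ?_⟩
      · rw [norm_div, Complex.norm_real, norm_norm]
        exact div_self this
      · have : (‖Z‖ : ℂ) ≠ 0 := by exact_mod_cast this
        field_simp
  obtain ⟨u, hu1, huB⟩ := hu B
  obtain ⟨w, hw1, hwC⟩ := hu C
  obtain ⟨g, hg⟩ := IsAlgClosed.exists_pow_nat_eq (u * w) (by norm_num : 0 < 2)
  have hg1 : ‖g‖ = 1 := by
    have : ‖g‖ ^ 2 = 1 := by rw [← norm_pow, hg, norm_mul, hu1, hw1, mul_one]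
    exact (pow_eq_one_iff_of_nonneg (norm_nonneg _) (by norm_num)).1 this
  have conj1 : ∀ z : ℂ, ‖z‖ = 1 → z * (starRingEnd ℂ) z = 1 := by
    intro z hz
    rw [Complex.mul_conj, Complex.normSq_eq_norm_sq, hz]
    simp
  have hgg := conj1 g hg1
  have huu := conj1 u hu1
  -- reduced form
  set A' : ℂ := (starRingEnd ℂ) g * A with hA'
  have hred : ∀ ζ : ℂ, ‖ζ‖ = 1 → ‖A' + ‖B‖ * ζ + ‖C‖ * (starRingEnd ℂ) ζ‖ ≤ V := by
    intro ζ hζ
    have h2 := h (g * (starRingEnd ℂ) u * ζ) (by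
      rw [norm_mul, norm_mul, RCLike.norm_conj, hg1, hu1, hζ]; norm_num)
    have e : A + B * (g * (starRingEnd ℂ) u * ζ)
        + C * (starRingEnd ℂ) (g * (starRingEnd ℂ) u * ζ)
        = g * (A' + ‖B‖ * ζ + ‖C‖ * (starRingEnd ℂ) ζ) := by
      rw [map_mul, map_mul, Complex.conj_conj, hA']
      have eB : B * (g * (starRingEnd ℂ) u * ζ) = g * (‖B‖ * ζ) := by
        calc B * (g * (starRingEnd ℂ) u * ζ)
            = ‖B‖ * (u * (starRingEnd ℂ) u) * g * ζ := by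
              conv_lhs => rw [huB]
              ring
          _ = g * (‖B‖ * ζ) := by rw [huu]; ring
      have eC : C * ((starRingEnd ℂ) g * u * (starRingEnd ℂ) ζ)
          = g * (‖C‖ * (starRingEnd ℂ) ζ) := by
        calc C * ((starRingEnd ℂ) g * u * (starRingEnd ℂ) ζ)
            = ‖C‖ * (u * w) * (starRingEnd ℂ) g * (starRingEnd ℂ) ζ := by
              conv_lhs => rw [hwC]
              ring
          _ = ‖C‖ * (g * (starRingEnd ℂ) g) * g * (starRingEnd ℂ) ζ := by rw [← hg]; ring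
          _ = g * (‖C‖ * (starRingEnd ℂ) ζ) := by rw [hgg]; ring
      rw [eB, eC]
      calc A + g * (‖B‖ * ζ) + g * (‖C‖ * (starRingEnd ℂ) ζ)
          = (g * (starRingEnd ℂ) g) * A + g * (‖B‖ * ζ) + g * (‖C‖ * (starRingEnd ℂ) ζ) := by
            rw [hgg]; ring
        _ = g * ((starRingEnd ℂ) g * A + ‖B‖ * ζ + ‖C‖ * (starRingEnd ℂ) ζ) := by ring
    rw [e, norm_mul, hg1, one_mul] at h2
    exact h2
  have hNA : ‖A'‖ = ‖A‖ := by rw [hA', norm_mul, RCLike.norm_conj, hg1, one_mul]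
  set P := |A'.re| with hP
  set R := |A'.im| with hR
  set N := ‖A‖ with hN
  have hPR : P ^ 2 + R ^ 2 = N ^ 2 := by
    rw [hP, hR, sq_abs, sq_abs, ← hNA, ← Complex.normSq_eq_norm_sq, Complex.normSq_apply]
    ring
  have hP0 : 0 ≤ P := abs_nonneg _
  have hR0 : 0 ≤ R := abs_nonneg _
  have hN0 : 0 ≤ N := norm_nonneg _
  -- choice of the angle
  obtain ⟨s, c, hs0, hsσ, hc0, hsc, hval⟩ : ∃ s c : ℝ, 0 ≤ s ∧ s ≤ σ ∧ 0 ≤ c ∧
      c ^ 2 + s ^ 2 = 1 ∧ σ * N ≤ P * c + R * s := by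
    rcases le_or_gt (σ * N) R with hcase | hcase
    · refine ⟨σ, Real.sqrt (1 - σ ^ 2), h0, le_refl _, Real.sqrt_nonneg _, ?_, ?_⟩
      · rw [Real.sq_sqrt (by nlinarith)]
        ring
      · set c := Real.sqrt (1 - σ ^ 2) with hc
        have hc0 : 0 ≤ c := Real.sqrt_nonneg _
        have hcs : c ^ 2 = 1 - σ ^ 2 := by
          rw [hc, Real.sq_sqrt (by nlinarith)]
        rcases hN0.eq_or_lt with hz | hz
        · rw [← hz, mul_zero]
          positivity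
        · have k0 : (σ * N) ^ 2 ≤ R ^ 2 := pow_le_pow_left₀ (by positivity) hcase 2
          have k1 : P ≤ N * c := by
            apply le_of_sq_le_sq _ (by positivity)
            rw [mul_pow, hcs]
            nlinarith
          have k2 : R ≤ N := by
            apply le_of_sq_le_sq _ hN0
            nlinarith
          have k3 : P * P ≤ P * (N * c) := mul_le_mul_of_nonneg_left k1 hP0
          have k4 : 0 ≤ (N - R) * (N + R - σ * N) := by
            apply mul_nonneg (by linarith)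
            nlinarith
          have k5 : N * (σ * N) ≤ N * (P * c + R * σ) := by nlinarith
          exact le_of_mul_le_mul_left k5 hz
    · have hz : 0 < N := by
        rcases hN0.eq_or_lt with hz | hz
        · rw [← hz, mul_zero] at hcase
          linarith
        · exact hz
      refine ⟨R / N, P / N, by positivity, ?_, by positivity, ?_, ?_⟩
      · rw [div_le_iff₀ hz]
        exact hcase.le
      · rw [div_pow, div_pow, ← add_div, hPR]
        exact div_self (by positivity)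
      · have : P * (P / N) + R * (R / N) = N := by
          field_simp
          linarith
        rw [this]
        nlinarith
  -- signs
  obtain ⟨x, hx2, hxP⟩ : ∃ x : ℝ, x ^ 2 = c ^ 2 ∧ A'.re * x = P * c := by
    rcases le_total 0 A'.re with hh | hh
    · exact ⟨c, rfl, by rw [hP, abs_of_nonneg hh]⟩
    · exact ⟨-c, by ring, by rw [hP, abs_of_nonpos hh]; ring⟩
  obtain ⟨y, hy2, hyR⟩ : ∃ y : ℝ, y ^ 2 = s ^ 2 ∧ A'.im * y = R * s := by
    rcases le_total 0 A'.im with hh | hh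
    · exact ⟨s, rfl, by rw [hR, abs_of_nonneg hh]⟩
    · exact ⟨-s, by ring, by rw [hR, abs_of_nonpos hh]; ring⟩
  have hζ : ‖(⟨x, y⟩ : ℂ)‖ = 1 := by
    have : ‖(⟨x, y⟩ : ℂ)‖ ^ 2 = 1 := by
      rw [← Complex.normSq_eq_norm_sq, Complex.normSq_apply]
      simp only
      nlinarith
    exact (pow_eq_one_iff_of_nonneg (norm_nonneg _) (by norm_num)).1 this
  have h3 := hred ⟨x, y⟩ hζ
  have h4 : ((starRingEnd ℂ) (⟨x, y⟩ : ℂ) * (A' + ‖B‖ * ⟨x, y⟩
      + ‖C‖ * (starRingEnd ℂ) (⟨x, y⟩ : ℂ))).re ≤ V := by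
    refine (Complex.re_le_norm _).trans ?_
    rw [norm_mul, RCLike.norm_conj, hζ, one_mul]
    exact h3
  simp only [Complex.mul_re, Complex.add_re, Complex.add_im, Complex.mul_im, Complex.conj_re,
    Complex.conj_im, Complex.ofReal_re, Complex.ofReal_im] at h4
  have h5 : A'.re * x + A'.im * y + ‖B‖ * (x ^ 2 + y ^ 2) + ‖C‖ * (x ^ 2 - y ^ 2) ≤ V := by
    nlinarith
  rw [hxP, hyR, hx2, hy2, hsc] at h5
  have h6 : 1 - 2 * σ ^ 2 ≤ c ^ 2 - s ^ 2 := by nlinarith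
  have h7 : ‖C‖ * (1 - 2 * σ ^ 2) ≤ ‖C‖ * (c ^ 2 - s ^ 2) :=
    mul_le_mul_of_nonneg_left h6 (norm_nonneg _)
  linarith

lemma edge (p q M a b x y x' y' : ℝ) (hp : 0 ≤ p) (hy : y < y') (h1 : y ≤ b) (h2 : b ≤ y')
    (hl : (y' - y) * a + (x - x') * b ≤ (y' - y) * x + (x - x') * y)
    (e1 : p * x + q * y ≤ M) (e2 : p * x' + q * y' ≤ M) : p * a + q * b ≤ M := by
  have k1 : 0 ≤ (y' - b) * (M - (p * x + q * y)) :=
    mul_nonneg (by linarith) (by linarith)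
  have k2 : 0 ≤ (b - y) * (M - (p * x' + q * y')) :=
    mul_nonneg (by linarith) (by linarith)
  have k3 : 0 ≤ p * ((y' - y) * x + (x - x') * y - ((y' - y) * a + (x - x') * b)) :=
    mul_nonneg hp (by linarith)
  have k4 : 0 ≤ (y' - y) * (M - (p * a + q * b)) := by nlinarith
  have k5 : 0 < y' - y := by linarith
  have k6 := nonneg_of_mul_nonneg_right k4 k5
  linarith

lemma polyX (p q M a b : ℝ) (hp : 0 ≤ p) (hq : 0 ≤ q) (ha : 0 ≤ a) (hb : 0 ≤ b)
    (hab : a ^ 3 + b ^ 3 ≤ 1)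
    (e0 : p * (73 / 250) + q * 1 ≤ M)
    (e1 : p * (127 / 200) + q * (933 / 1000) ≤ M)
    (e2 : p * (881 / 1000) + q * (361 / 500) ≤ M)
    (e3 : p * 1 + q * (77 / 200) ≤ M) :
    p * a + q * b ≤ M := by
  have ha1 : a ≤ 1 := by
    by_contra hh
    push Not at hh
    have h2 : 1 < a ^ 3 := one_lt_pow₀ hh (by norm_num)
    have h3 : 0 ≤ b ^ 3 := by positivity
    linarith
  have hb1 : b ≤ 1 := by
    by_contra hh
    push Not at hh
    have h2 : 1 < b ^ 3 := one_lt_pow₀ hh (by norm_num)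
    have h3 : 0 ≤ a ^ 3 := by positivity
    linarith
  have g0 : p * (8083 / 27735) + q * 1 ≤ M := by linarith
  have g1 : p * (166217849 / 261960675) + q * (244299401 / 261960675) ≤ M := by linarith
  have g2 : p * (170436563 / 193592475) + q * (139652137 / 193592475) ≤ M := by linarith
  have g3 : p * 1 + q * (113 / 294) ≤ M := by linarith
  have t0 : (1849 / 10000) * a + (9409 / 10000) * b ≤ (74609 / 75000) := by
    have s1 : 0 ≤ (a - (43 / 100)) ^ 2 * (a + 2 * (43 / 100)) := by positivity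
    have s2 : 0 ≤ (b - (97 / 100)) ^ 2 * (b + 2 * (97 / 100)) := by positivity
    nlinarith
  have t1 : (361 / 625) * a + (1681 / 2500) * b ≤ (186293 / 187500) := by
    have s1 : 0 ≤ (a - (19 / 25)) ^ 2 * (a + 2 * (19 / 25)) := by positivity
    have s2 : 0 ≤ (b - (41 / 50)) ^ 2 * (b + 2 * (41 / 50)) := by positivity
    nlinarith
  have t2 : (2209 / 2500) * a + (196 / 625) * b ≤ (7531 / 7500) := by
    have s1 : 0 ≤ (a - (47 / 50)) ^ 2 * (a + 2 * (47 / 50)) := by positivity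
    have s2 : 0 ≤ (b - (14 / 25)) ^ 2 * (b + 2 * (14 / 25)) := by positivity
    nlinarith
  rcases le_total (b) (113 / 294) with c3 | c3
  · have m1 : p * a ≤ p * 1 := mul_le_mul_of_nonneg_left ha1 hp
    have m2 : q * b ≤ q * (113 / 294) := mul_le_mul_of_nonneg_left c3 hq
    linarith
  rcases le_total (b) (139652137 / 193592475) with c2 | c2
  · exact edge p q M (a) (b) 1 (113 / 294) (170436563 / 193592475) (139652137 / 193592475) hp (by norm_num) c3 c2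
      (by linarith) g3 g2
  rcases le_total (b) (244299401 / 261960675) with c1 | c1
  · exact edge p q M (a) (b) (170436563 / 193592475) (139652137 / 193592475) (166217849 / 261960675) (244299401 / 261960675) hp (by norm_num) c2 c1
      (by linarith) g2 g1
  exact edge p q M (a) (b) (166217849 / 261960675) (244299401 / 261960675) (8083 / 27735) 1 hp (by norm_num) c1 hb1
      (by linarith) g1 g0

lemma polyH (p q M a b : ℝ) (hp : 0 ≤ p) (hq : 0 ≤ q) (ha : 0 ≤ a) (hb : 0 ≤ b)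
    (hab : a ^ 3 + b ^ 3 ≤ 1)
    (e0 : p * (73 / 1000) + q * 1 ≤ M)
    (e1 : p * (17 / 40) + q * (417 / 500) ≤ M)
    (e2 : p * (771 / 1000) + q * (123 / 250) ≤ M)
    (e3 : p * 1 + q * (117 / 1000) ≤ M) :
    p * a ^ 2 + q * b ^ 2 ≤ M := by
  have ha1 : a ≤ 1 := by
    by_contra hh
    push Not at hh
    have h2 : 1 < a ^ 3 := one_lt_pow₀ hh (by norm_num)
    have h3 : 0 ≤ b ^ 3 := by positivity
    linarith
  have hb1 : b ≤ 1 := by
    by_contra hh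
    push Not at hh
    have h2 : 1 < b ^ 3 := one_lt_pow₀ hh (by norm_num)
    have h3 : 0 ≤ a ^ 3 := by positivity
    linarith
  have ha2 : a ^ 2 ≤ 1 := pow_le_one₀ ha ha1
  have hb2 : b ^ 2 ≤ 1 := pow_le_one₀ hb hb1
  have g0 : p * (100009 / 1380000) + q * 1 ≤ M := by linarith
  have g1 : p * (16896021 / 39830000) + q * (99558917 / 119490000) ≤ M := by linarith
  have g2 : p * (67876777 / 88110000) + q * (43294177 / 88110000) ≤ M := by linarith
  have g3 : p * 1 + q * (3991 / 34200) ≤ M := by linarith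
  have t0 : (23 / 50) * a ^ 2 + (97 / 100) * b ^ 2 ≤ (3010009 / 3000000) := by
    have s1 : 0 ≤ (a - (23 / 50)) ^ 2 * (2 * a + (23 / 50)) := by positivity
    have s2 : 0 ≤ (b - (97 / 100)) ^ 2 * (2 * b + (97 / 100)) := by positivity
    nlinarith
  have t1 : (79 / 100) * a ^ 2 + (4 / 5) * b ^ 2 ≤ (3005039 / 3000000) := by
    have s1 : 0 ≤ (a - (79 / 100)) ^ 2 * (2 * a + (79 / 100)) := by positivity
    have s2 : 0 ≤ (b - (4 / 5)) ^ 2 * (2 * b + (4 / 5)) := by positivity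
    nlinarith
  have t2 : (93 / 100) * a ^ 2 + (57 / 100) * b ^ 2 ≤ (59791 / 60000) := by
    have s1 : 0 ≤ (a - (93 / 100)) ^ 2 * (2 * a + (93 / 100)) := by positivity
    have s2 : 0 ≤ (b - (57 / 100)) ^ 2 * (2 * b + (57 / 100)) := by positivity
    nlinarith
  rcases le_total (b ^ 2) (3991 / 34200) with c3 | c3
  · have m1 : p * a ^ 2 ≤ p * 1 := mul_le_mul_of_nonneg_left ha2 hp
    have m2 : q * b ^ 2 ≤ q * (3991 / 34200) := mul_le_mul_of_nonneg_left c3 hq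
    linarith
  rcases le_total (b ^ 2) (43294177 / 88110000) with c2 | c2
  · exact edge p q M (a ^ 2) (b ^ 2) 1 (3991 / 34200) (67876777 / 88110000) (43294177 / 88110000) hp (by norm_num) c3 c2
      (by linarith) g3 g2
  rcases le_total (b ^ 2) (99558917 / 119490000) with c1 | c1
  · exact edge p q M (a ^ 2) (b ^ 2) (67876777 / 88110000) (43294177 / 88110000) (16896021 / 39830000) (99558917 / 119490000) hp (by norm_num) c2 c1
      (by linarith) g2 g1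
  exact edge p q M (a ^ 2) (b ^ 2) (16896021 / 39830000) (99558917 / 119490000) (100009 / 1380000) 1 hp (by norm_num) c1 hb2
      (by linarith) g1 g0

lemma twoD (α β γ δ v : ℝ) (hα : 0 ≤ α) (hβ : 0 ≤ β) (hγ : 0 ≤ γ) (hδ : 0 ≤ δ)
    (F1 : ∀ t σ : ℝ, 0 ≤ t → -1 ≤ σ → σ ≤ 1 →
      β * t + γ * t ^ 2 * (1 - 2 * σ ^ 2) + σ * (α - δ * t ^ 3) ≤ v * (1 + t ^ 3))
    (F2 : ∀ t σ : ℝ, 0 ≤ t → -1 ≤ σ → σ ≤ 1 →
      β * t * (1 - 2 * σ ^ 2) + γ * t ^ 2 + σ * (α - δ * t ^ 3) ≤ v * (1 + t ^ 3))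
    (a b h k : ℝ) (ha : 0 ≤ a) (hb : 0 ≤ b) (hh : 0 ≤ h) (hk : 0 ≤ k)
    (hab : a ^ 3 + b ^ 3 ≤ 1) (hhk : h ^ 3 + k ^ 3 ≤ 1) :
    h ^ 2 * (α * a + β * b) + k ^ 2 * (γ * a + δ * b) ≤ 197 / 100 * v := by
  have f0 := F2 5 (-1) (by norm_num) (by norm_num) (by norm_num)
  norm_num at f0
  have f1 := F1 (7 / 20) 1 (by norm_num) (by norm_num) (by norm_num)
  norm_num at f1
  have f2 := F1 (9 / 10) 0 (by norm_num) (by norm_num) (by norm_num)
  norm_num at f2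
  have f3 := F1 (19 / 20) 0 (by norm_num) (by norm_num) (by norm_num)
  norm_num at f3
  have f4 := F1 (3 / 20) 1 (by norm_num) (by norm_num) (by norm_num)
  norm_num at f4
  have f5 := F2 (5 / 2) (-1) (by norm_num) (by norm_num) (by norm_num)
  norm_num at f5
  have f6 := F2 (20 / 9) (-1) (by norm_num) (by norm_num) (by norm_num)
  norm_num at f6
  have f7 := F2 (20 / 19) (1 / 10) (by norm_num) (by norm_num) (by norm_num)
  norm_num at f7
  have f8 := F2 2 (-1) (by norm_num) (by norm_num) (by norm_num)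
  norm_num at f8
  have f9 := F2 (20 / 11) (-1) (by norm_num) (by norm_num) (by norm_num)
  norm_num at f9
  have f10 := F2 (19 / 20) (1 / 2) (by norm_num) (by norm_num) (by norm_num)
  norm_num at f10
  have f11 := F2 1 (2 / 5) (by norm_num) (by norm_num) (by norm_num)
  norm_num at f11
  have f12 := F2 (5 / 3) (-1) (by norm_num) (by norm_num) (by norm_num)
  norm_num at f12
  have f13 := F2 (20 / 13) (-9 / 10) (by norm_num) (by norm_num) (by norm_num)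
  norm_num at f13
  have f14 := F2 (10 / 9) (2 / 5) (by norm_num) (by norm_num) (by norm_num)
  norm_num at f14
  have f15 := F2 (20 / 19) (3 / 5) (by norm_num) (by norm_num) (by norm_num)
  norm_num at f15
  have f16 := F2 (20 / 3) (-1) (by norm_num) (by norm_num) (by norm_num)
  norm_num at f16
  have f17 := F1 (9 / 20) 1 (by norm_num) (by norm_num) (by norm_num)
  norm_num at f17
  have f18 := F1 2 (-1) (by norm_num) (by norm_num) (by norm_num)
  norm_num at f18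
  have f19 := F1 (20 / 19) (-2 / 5) (by norm_num) (by norm_num) (by norm_num)
  norm_num at f19
  have f20 := F2 4 (-1) (by norm_num) (by norm_num) (by norm_num)
  norm_num at f20
  have f21 := F1 (3 / 10) 1 (by norm_num) (by norm_num) (by norm_num)
  norm_num at f21
  have f22 := F1 1 0 (by norm_num) (by norm_num) (by norm_num)
  norm_num at f22
  have f23 := F2 (20 / 19) (1 / 5) (by norm_num) (by norm_num) (by norm_num)
  norm_num at f23
  have f24 := F2 1 (1 / 5) (by norm_num) (by norm_num) (by norm_num)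
  norm_num at f24
  have f25 := F2 (1 / 2) 1 (by norm_num) (by norm_num) (by norm_num)
  norm_num at f25
  have f26 := F2 (19 / 20) (2 / 5) (by norm_num) (by norm_num) (by norm_num)
  norm_num at f26
  have f27 := F1 (19 / 20) (-1 / 5) (by norm_num) (by norm_num) (by norm_num)
  norm_num at f27
  have f28 := F1 1 (-3 / 10) (by norm_num) (by norm_num) (by norm_num)
  norm_num at f28
  have f29 := F2 (10 / 3) (-1) (by norm_num) (by norm_num) (by norm_num)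
  norm_num at f29
  have f30 := F2 1 (3 / 10) (by norm_num) (by norm_num) (by norm_num)
  norm_num at f30
  have f31 := F1 (3 / 5) 1 (by norm_num) (by norm_num) (by norm_num)
  norm_num at f31
  have f32 := F1 (13 / 20) (9 / 10) (by norm_num) (by norm_num) (by norm_num)
  norm_num at f32
  have f33 := F1 (9 / 10) (-2 / 5) (by norm_num) (by norm_num) (by norm_num)
  norm_num at f33
  have f34 := F1 (19 / 20) (-3 / 5) (by norm_num) (by norm_num) (by norm_num)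
  norm_num at f34
  have f35 := F1 (1 / 2) 1 (by norm_num) (by norm_num) (by norm_num)
  norm_num at f35
  have f36 := F1 (11 / 20) 1 (by norm_num) (by norm_num) (by norm_num)
  norm_num at f36
  have f37 := F1 (20 / 19) (-1 / 2) (by norm_num) (by norm_num) (by norm_num)
  norm_num at f37
  have f38 := F1 1 (-2 / 5) (by norm_num) (by norm_num) (by norm_num)
  norm_num at f38
  have f39 := F1 (19 / 20) (-1 / 10) (by norm_num) (by norm_num) (by norm_num)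
  norm_num at f39
  have f40 := F1 1 (-1 / 5) (by norm_num) (by norm_num) (by norm_num)
  norm_num at f40
  have f41 := F1 (1 / 5) 1 (by norm_num) (by norm_num) (by norm_num)
  norm_num at f41
  have f42 := F1 (1 / 4) 1 (by norm_num) (by norm_num) (by norm_num)
  norm_num at f42
  have f43 := F2 (20 / 7) (-1) (by norm_num) (by norm_num) (by norm_num)
  norm_num at f43
  have f44 := F1 (20 / 19) 0 (by norm_num) (by norm_num) (by norm_num)
  norm_num at f44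
  have q00 : (α * (73 / 250) + β * 1) * (73 / 1000) + (γ * (73 / 250) + δ * 1) * 1 ≤ 197 / 100 * v := by
    linarith only [f0, f1, f2, f3, hα, hβ, hγ, hδ]
  have q01 : (α * (127 / 200) + β * (933 / 1000)) * (73 / 1000) + (γ * (127 / 200) + δ * (933 / 1000)) * 1 ≤ 197 / 100 * v := by
    linarith only [f4, f5, f6, f7, hα, hβ, hγ, hδ]
  have q02 : (α * (881 / 1000) + β * (361 / 500)) * (73 / 1000) + (γ * (881 / 1000) + δ * (361 / 500)) * 1 ≤ 197 / 100 * v := by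
    linarith only [f8, f9, f10, f11, hα, hβ, hγ, hδ]
  have q03 : (α * 1 + β * (77 / 200)) * (73 / 1000) + (γ * 1 + δ * (77 / 200)) * 1 ≤ 197 / 100 * v := by
    linarith only [f12, f13, f14, f15, hα, hβ, hγ, hδ]
  have q10 : (α * (73 / 250) + β * 1) * (17 / 40) + (γ * (73 / 250) + δ * 1) * (417 / 500) ≤ 197 / 100 * v := by
    linarith only [f16, f17, f18, f19, hα, hβ, hγ, hδ]
  have q11 : (α * (127 / 200) + β * (933 / 1000)) * (17 / 40) + (γ * (127 / 200) + δ * (933 / 1000)) * (417 / 500) ≤ 197 / 100 * v := by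
    linarith only [f20, f21, f3, f22, hα, hβ, hγ, hδ]
  have q12 : (α * (881 / 1000) + β * (361 / 500)) * (17 / 40) + (γ * (881 / 1000) + δ * (361 / 500)) * (417 / 500) ≤ 197 / 100 * v := by
    linarith only [f4, f6, f23, f24, hα, hβ, hγ, hδ]
  have q13 : (α * 1 + β * (77 / 200)) * (17 / 40) + (γ * 1 + δ * (77 / 200)) * (417 / 500) ≤ 197 / 100 * v := by
    linarith only [f4, f6, f25, f26, hα, hβ, hγ, hδ]
  have q20 : (α * (73 / 250) + β * 1) * (771 / 1000) + (γ * (73 / 250) + δ * 1) * (123 / 250) ≤ 197 / 100 * v := by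
    linarith only [f16, f17, f18, f19, hα, hβ, hγ, hδ]
  have q21 : (α * (127 / 200) + β * (933 / 1000)) * (771 / 1000) + (γ * (127 / 200) + δ * (933 / 1000)) * (123 / 250) ≤ 197 / 100 * v := by
    linarith only [f16, f17, f27, f28, hα, hβ, hγ, hδ]
  have q22 : (α * (881 / 1000) + β * (361 / 500)) * (771 / 1000) + (γ * (881 / 1000) + δ * (361 / 500)) * (123 / 250) ≤ 197 / 100 * v := by
    linarith only [f20, f29, f21, f22, hα, hβ, hγ, hδ]
  have q23 : (α * 1 + β * (77 / 200)) * (771 / 1000) + (γ * 1 + δ * (77 / 200)) * (123 / 250) ≤ 197 / 100 * v := by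
    linarith only [f4, f6, f26, f30, hα, hβ, hγ, hδ]
  have q30 : (α * (73 / 250) + β * 1) * 1 + (γ * (73 / 250) + δ * 1) * (117 / 1000) ≤ 197 / 100 * v := by
    linarith only [f31, f32, f33, f34, hα, hβ, hγ, hδ]
  have q31 : (α * (127 / 200) + β * (933 / 1000)) * 1 + (γ * (127 / 200) + δ * (933 / 1000)) * (117 / 1000) ≤ 197 / 100 * v := by
    linarith only [f35, f36, f37, f38, hα, hβ, hγ, hδ]
  have q32 : (α * (881 / 1000) + β * (361 / 500)) * 1 + (γ * (881 / 1000) + δ * (361 / 500)) * (117 / 1000) ≤ 197 / 100 * v := by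
    linarith only [f16, f17, f39, f40, hα, hβ, hγ, hδ]
  have q33 : (α * 1 + β * (77 / 200)) * 1 + (γ * 1 + δ * (77 / 200)) * (117 / 1000) ≤ 197 / 100 * v := by
    linarith only [f41, f42, f43, f44, hα, hβ, hγ, hδ]
  have r0 : (α * (73 / 250) + β * 1) * h ^ 2 + (γ * (73 / 250) + δ * 1) * k ^ 2 ≤ 197 / 100 * v :=
    polyH _ _ _ h k (by positivity) (by positivity) hh hk hhk q00 q10 q20 q30
  have r1 : (α * (127 / 200) + β * (933 / 1000)) * h ^ 2 + (γ * (127 / 200) + δ * (933 / 1000)) * k ^ 2 ≤ 197 / 100 * v :=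
    polyH _ _ _ h k (by positivity) (by positivity) hh hk hhk q01 q11 q21 q31
  have r2 : (α * (881 / 1000) + β * (361 / 500)) * h ^ 2 + (γ * (881 / 1000) + δ * (361 / 500)) * k ^ 2 ≤ 197 / 100 * v :=
    polyH _ _ _ h k (by positivity) (by positivity) hh hk hhk q02 q12 q22 q32
  have r3 : (α * 1 + β * (77 / 200)) * h ^ 2 + (γ * 1 + δ * (77 / 200)) * k ^ 2 ≤ 197 / 100 * v :=
    polyH _ _ _ h k (by positivity) (by positivity) hh hk hhk q03 q13 q23 q33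
  have fin := polyX (α * h ^ 2 + γ * k ^ 2) (β * h ^ 2 + δ * k ^ 2) (197 / 100 * v) a b (by positivity)
    (by positivity) ha hb hab (by linarith only [r0]) (by linarith only [r1]) (by linarith only [r2]) (by linarith only [r3])
  linarith only [fin]

lemma two_lower (S : Two3 →L[ℂ] Two3) : ‖S‖ ≤ 197 / 100 * numRadius ℂ S := by
  set v := numRadius ℂ S with hv
  have hv0 : 0 ≤ v := numRadius_nonneg S
  set e0 : Two3 := WithLp.toLp 3 ![1, 0] with he0
  set e1 : Two3 := WithLp.toLp 3 ![0, 1] with he1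
  have hdec : ∀ x : Two3, x = x 0 • e0 + x 1 • e1 := by
    intro x
    ext i
    fin_cases i <;> simp [he0, he1]
  set a := (S e0) 0 with ha
  set c := (S e0) 1 with hc
  set b := (S e1) 0 with hb
  set d := (S e1) 1 with hd
  have hS0 : ∀ x : Two3, (S x) 0 = a * x 0 + b * x 1 := by
    intro x
    conv_lhs => rw [hdec x]
    rw [map_add, map_smul, map_smul]
    have : (x 0 • S e0 + x 1 • S e1) 0 = x 0 * (S e0) 0 + x 1 * (S e1) 0 := rfl
    rw [this]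
    ring
  have hS1 : ∀ x : Two3, (S x) 1 = c * x 0 + d * x 1 := by
    intro x
    conv_lhs => rw [hdec x]
    rw [map_add, map_smul, map_smul]
    have : (x 0 • S e0 + x 1 • S e1) 1 = x 0 * (S e0) 1 + x 1 * (S e1) 1 := rfl
    rw [this]
    ring
  -- numerical range inequalities
  have hnr : ∀ t : ℝ, 0 ≤ t → ∀ z : ℂ, ‖z‖ = 1 →
      ‖(a + d * (t : ℂ) ^ 3) + (b * t) * z + (c * (t : ℂ) ^ 2) * (starRingEnd ℂ) z‖
        ≤ v * (1 + t ^ 3) := by
    intro t ht z hz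
    have h := hom S (WithLp.toLp 3 ![1, (t : ℂ) * z])
    have x0 : (WithLp.toLp 3 ![1, (t : ℂ) * z] : Two3) 0 = 1 := rfl
    have x1 : (WithLp.toLp 3 ![1, (t : ℂ) * z] : Two3) 1 = (t : ℂ) * z := rfl
    rw [two_norm, phi_apply, hS0, hS1, x0, x1] at h
    have n1 : ‖(t : ℂ) * z‖ = t := by
      rw [norm_mul, hz, mul_one, Complex.norm_real, Real.norm_of_nonneg ht]
    rw [n1] at h
    have hzz : z * (starRingEnd ℂ) z = 1 := by
      rw [Complex.mul_conj, Complex.normSq_eq_norm_sq, hz]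
      simp
    have e : ((‖(1 : ℂ)‖ : ℝ) : ℂ) * (starRingEnd ℂ) 1 * (a * 1 + b * ((t : ℂ) * z))
        + (t : ℂ) * (starRingEnd ℂ) ((t : ℂ) * z) * (c * 1 + d * ((t : ℂ) * z))
        = (a + d * (t : ℂ) ^ 3) + (b * t) * z + (c * (t : ℂ) ^ 2) * (starRingEnd ℂ) z := by
      simp only [map_mul, map_one, Complex.conj_ofReal, norm_one, Complex.ofReal_one]
      calc (1 : ℂ) * 1 * (a * 1 + b * (t * z)) + t * (t * (starRingEnd ℂ) z) * (c * 1 + d * (t * z))
          = a + b * t * z + c * t ^ 2 * (starRingEnd ℂ) z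
            + d * t ^ 3 * (z * (starRingEnd ℂ) z) := by ring
        _ = _ := by rw [hzz]; ring
    rw [e] at h
    simpa using h
  have hnorms : ∀ t : ℝ, 0 ≤ t → ‖b * (t : ℂ)‖ = ‖b‖ * t ∧ ‖c * (t : ℂ) ^ 2‖ = ‖c‖ * t ^ 2
      ∧ ‖a‖ - ‖d‖ * t ^ 3 ≤ ‖a + d * (t : ℂ) ^ 3‖ ∧ ‖d‖ * t ^ 3 - ‖a‖ ≤ ‖a + d * (t : ℂ) ^ 3‖ := by
    intro t ht
    have ht' : ‖(t : ℂ)‖ = t := by rw [Complex.norm_real, Real.norm_of_nonneg ht]
    have hd3 : ‖d * (t : ℂ) ^ 3‖ = ‖d‖ * t ^ 3 := by rw [norm_mul, norm_pow, ht']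
    refine ⟨by rw [norm_mul, ht'], by rw [norm_mul, norm_pow, ht'], ?_, ?_⟩
    · have := norm_sub_le (a + d * (t : ℂ) ^ 3) (d * (t : ℂ) ^ 3)
      rw [add_sub_cancel_right, hd3] at this
      linarith
    · have := norm_sub_le (a + d * (t : ℂ) ^ 3) a
      rw [add_sub_cancel_left, hd3] at this
      linarith
  have hsig : ∀ (A α δ σ : ℝ), α - δ ≤ A → δ - α ≤ A → σ * (α - δ) ≤ |σ| * A := by
    intro A α δ σ h1 h2
    rcases le_total 0 σ with h | h
    · rw [abs_of_nonneg h]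
      exact mul_le_mul_of_nonneg_left h1 h
    · rw [abs_of_nonpos h]
      nlinarith
  have F1 : ∀ t σ : ℝ, 0 ≤ t → -1 ≤ σ → σ ≤ 1 →
      ‖b‖ * t + ‖c‖ * t ^ 2 * (1 - 2 * σ ^ 2) + σ * (‖a‖ - ‖d‖ * t ^ 3) ≤ v * (1 + t ^ 3) := by
    intro t σ ht h1 h2
    have h := ellipse _ _ _ _ |σ| (hnr t ht) (abs_nonneg _) (abs_le.2 ⟨h1, h2⟩)
    obtain ⟨n1, n2, n3, n4⟩ := hnorms t ht
    rw [n1, n2, sq_abs] at h
    have := hsig _ _ _ σ n3 n4
    linarith
  have F2 : ∀ t σ : ℝ, 0 ≤ t → -1 ≤ σ → σ ≤ 1 →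
      ‖b‖ * t * (1 - 2 * σ ^ 2) + ‖c‖ * t ^ 2 + σ * (‖a‖ - ‖d‖ * t ^ 3) ≤ v * (1 + t ^ 3) := by
    intro t σ ht h1 h2
    have hsw : ∀ z : ℂ, ‖z‖ = 1 →
        ‖(a + d * (t : ℂ) ^ 3) + (c * (t : ℂ) ^ 2) * z + (b * t) * (starRingEnd ℂ) z‖
          ≤ v * (1 + t ^ 3) := by
      intro z hz
      have := hnr t ht ((starRingEnd ℂ) z) (by rw [RCLike.norm_conj, hz])
      rw [Complex.conj_conj] at this
      convert! this using 2
      ring
    have h := ellipse _ _ _ _ |σ| hsw (abs_nonneg _) (abs_le.2 ⟨h1, h2⟩)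
    obtain ⟨n1, n2, n3, n4⟩ := hnorms t ht
    rw [n1, n2, sq_abs] at h
    have := hsig _ _ _ σ n3 n4
    linarith
  have hcoef := twoD ‖a‖ ‖b‖ ‖c‖ ‖d‖ v (norm_nonneg _) (norm_nonneg _) (norm_nonneg _)
    (norm_nonneg _) F1 F2
  apply ContinuousLinearMap.opNorm_le_of_unit_norm (by positivity)
  intro x hx
  have hx3 := two_norm x
  rw [hx, one_pow] at hx3
  have hy3 := two_norm (S x)
  set N := ‖S x‖ with hN
  set Y0 := ‖(S x) 0‖ with hY0
  set Y1 := ‖(S x) 1‖ with hY1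
  have hY0le : Y0 ≤ ‖a‖ * ‖x 0‖ + ‖b‖ * ‖x 1‖ := by
    rw [hY0, hS0]
    refine (norm_add_le _ _).trans ?_
    rw [norm_mul, norm_mul]
  have hY1le : Y1 ≤ ‖c‖ * ‖x 0‖ + ‖d‖ * ‖x 1‖ := by
    rw [hY1, hS1]
    refine (norm_add_le _ _).trans ?_
    rw [norm_mul, norm_mul]
  have hY00 : 0 ≤ Y0 := norm_nonneg _
  have hY10 : 0 ≤ Y1 := norm_nonneg _
  rcases (norm_nonneg (S x)).eq_or_lt with h0 | h0
  · rw [← hN] at h0
    rw [← h0]
    positivity
  · rw [← hN] at h0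
    have h1 := hcoef ‖x 0‖ ‖x 1‖ (Y0 / N) (Y1 / N) (norm_nonneg _) (norm_nonneg _) (by positivity)
      (by positivity) hx3.symm.le (by
        rw [div_pow, div_pow, ← add_div, ← hy3]
        exact (div_self (by positivity)).le)
    have h2 : (Y0 / N) ^ 2 * Y0 + (Y1 / N) ^ 2 * Y1 = N := by
      have : (Y0 / N) ^ 2 * Y0 + (Y1 / N) ^ 2 * Y1 = (Y0 ^ 3 + Y1 ^ 3) / N ^ 2 := by
        field_simp
      rw [this, ← hy3]
      field_simp
    calc N = (Y0 / N) ^ 2 * Y0 + (Y1 / N) ^ 2 * Y1 := h2.symm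
      _ ≤ (Y0 / N) ^ 2 * (‖a‖ * ‖x 0‖ + ‖b‖ * ‖x 1‖)
          + (Y1 / N) ^ 2 * (‖c‖ * ‖x 0‖ + ‖d‖ * ‖x 1‖) := by gcongr
      _ ≤ 197 / 100 * v := h1

lemma lower : 1 / (197 / 100) ≤ numIndex ℂ Two3 := by
  apply le_numIndex _ (by norm_num) _ two_lower
  have hne : (WithLp.toLp 3 ![1, 0] : Two3) ≠ 0 := by
    intro h
    have := congrArg (fun y : Two3 => y 0) h
    simp at this
  have : Nontrivial Two3 := ⟨⟨_, _, hne⟩⟩
  exact ⟨ContinuousLinearMap.id ℂ Two3, ContinuousLinearMap.norm_id⟩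

end Lower

/-- The complex numerical index of `ℓ_3` is strictly smaller than that of `ℓ_3^2`. -/
theorem result :
    numIndex ℂ (lp (fun _ : ℕ => ℂ) 3) < numIndex ℂ (PiLp 3 (fun _ : Fin 2 => ℂ)) := by
  have h1 := upper
  have h2 := lower
  calc numIndex ℂ Seq3 ≤ (7803 / 10000) / (1539 / 1000) := h1
    _ < 1 / (197 / 100) := by norm_num
    _ ≤ numIndex ℂ Two3 := h2

end Pool.Agent.Results.MP_3da572_an.ComplexDisproof
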